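import Pool.Agent.H69.LQ.Lib
import Pool.Agent.H69.LQ.Targets1

/-!
# Module K3: the divergence of the gradient of the Newton potential
-/

set_option autoImplicit false

open MeasureTheory Metric Set
open scoped ENNReal
open Pool.Agent.H85.LK (E adm lam Ann)
open Pool.Agent.H69.LQ

namespace Pool.Agent.H55.LQ1

/-- a linear form in coordinates -/
lemma lin_sum_K3 {N : ℕ} (T : E N →L[ℝ] ℝ) (v : E N) :
    T v = ∑ i, v i * T (EuclideanSpace.single i 1) := by
  have h : v = ∑ i, v i • (EuclideanSpace.single i (1 : ℝ) : E N) := by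
    ext j
    simp [Pi.single_apply]
  conv_lhs => rw [h, map_sum]
  refine Finset.sum_congr rfl fun i _ => ?_
  rw [map_smul, smul_eq_mul]

theorem pf_K3 (hMP : T_MP) (hK2 : T_K2) : T_K3 := by
  intro N f x hN hf hfs
  obtain ⟨hprob, har, -, hpol⟩ := hMP N hN
  set g : E N → ℝ := fun y => ∑ i, kn i y * pd i f (x - y) with hg
  have hint : ∀ i : Fin N, Integrable (fun y => kn i y * pd i f (x - y)) := fun i =>
    ((hK2 N f i hN hf hfs).2 i x).1
  have hgi : Integrable g := integrable_finsetSum _ fun i _ => hint i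
  have h1 : dv (KV f) x = ∫ y, g y := by
    unfold dv
    rw [hg, integral_finsetSum _ fun i _ => hint i]
    exact Finset.sum_congr rfl fun i _ => ((hK2 N f i hN hf hfs).2 i x).2
  have hdf : Differentiable ℝ f := hf.differentiable (by simp)
  have h2 : ∀ θ : Sp N, ∫ r in Ioi (0 : ℝ), r ^ (N - 1) * g (r • (θ : E N)) =
      (ar N)⁻¹ * f x := by
    intro θ
    set φ : ℝ → ℝ := fun r => f (x - r • (θ : E N)) with hφ
    have hφc : ContDiff ℝ 1 φ :=
      (hf.of_le (by exact_mod_cast le_top)).comp
        (contDiff_const.sub (contDiff_id.smul contDiff_const))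
    have hφs : HasCompactSupport φ := by
      obtain ⟨R, hR⟩ := hfs.isCompact.isBounded.subset_closedBall 0
      refine HasCompactSupport.intro (isCompact_closedBall (0 : ℝ) (‖x‖ + R)) ?_
      intro r hr
      by_contra hne
      apply hr
      have h3 : x - r • (θ : E N) ∈ closedBall (0 : E N) R := hR (subset_tsupport _ hne)
      rw [mem_closedBall, dist_zero_right] at h3
      rw [mem_closedBall, dist_zero_right, Real.norm_eq_abs, ← norm_smul_sp r θ]
      calc ‖r • (θ : E N)‖ = ‖x - (x - r • (θ : E N))‖ := by rw [sub_sub_cancel]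
        _ ≤ ‖x‖ + ‖x - r • (θ : E N)‖ := norm_sub_le _ _
        _ ≤ ‖x‖ + R := by linarith
    have hφd : ∀ r : ℝ, deriv φ r = -(fderiv ℝ f (x - r • (θ : E N)) (θ : E N)) := by
      intro r
      have e1 : HasDerivAt (fun r : ℝ => x - r • (θ : E N)) (-(θ : E N)) r := by
        have e0 : -(θ : E N) = 0 - (1 : ℝ) • (θ : E N) := by rw [one_smul, zero_sub]
        rw [e0]
        exact (hasDerivAt_const r x).sub ((hasDerivAt_id r).smul_const (θ : E N))
      have e2 := (hdf (x - r • (θ : E N))).hasFDerivAt.comp_hasDerivAt r e1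
      rw [map_neg] at e2
      exact e2.deriv
    have h4 : ∫ r in Ioi (0 : ℝ), deriv φ r = -φ 0 := hφs.integral_Ioi_deriv_eq hφc 0
    have h5 : ∀ r ∈ Ioi (0 : ℝ), r ^ (N - 1) * g (r • (θ : E N)) = -(ar N)⁻¹ * deriv φ r := by
      intro r hr
      have hr0 : 0 < r := hr
      rw [hφd, lin_sum_K3 (fderiv ℝ f (x - r • (θ : E N))) (θ : E N), hg]
      simp only []
      rw [neg_mul_neg, Finset.mul_sum, Finset.mul_sum]
      refine Finset.sum_congr rfl fun i _ => ?_
      have hrN : r ^ N = r ^ (N - 1) * r := by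
        rw [← pow_succ]
        congr 1
        omega
      have e3 : r ^ (N - 1) * kn i (r • (θ : E N)) = (ar N)⁻¹ * (θ : E N) i := by
        unfold kn
        rw [norm_smul_sp, abs_of_pos hr0, PiLp.smul_apply, smul_eq_mul, hrN]
        have : r ^ (N - 1) ≠ 0 := (pow_pos hr0 _).ne'
        field_simp
      rw [← mul_assoc, e3]
      unfold pd
      ring
    rw [setIntegral_congr_fun measurableSet_Ioi h5, integral_const_mul, h4, hφ]
    simp
  rw [h1, (hpol g hgi).2.2]
  simp_rw [h2]
  have h6 : av (fun _ : Sp N => (ar N)⁻¹ * f x) = (ar N)⁻¹ * f x := by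
    unfold av
    rw [integral_const]
    simp
  rw [h6, ← mul_assoc, mul_inv_cancel₀ har.ne', one_mul]

end Pool.Agent.H55.LQ1
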