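import Pool.Agent.H69.LQ.Lib
import Pool.Agent.H69.LQ.Targets1

/-!
# Module K5: bounds for the gradient of the Newton potential
-/

set_option autoImplicit false

open MeasureTheory Metric Set
open scoped ENNReal
open Pool.Agent.H85.LK (E adm lam Ann)
open Pool.Agent.H69.LQ

namespace Pool.Agent.H55.LQ1

section

variable {N : ℕ}

/-- the majorant of the kernel -/
noncomputable def wk (z : E N) : ℝ := (‖z‖ ^ (N - 1))⁻¹

lemma wk_nonneg (z : E N) : 0 ≤ wk z := by unfold wk; positivity

lemma wk_meas : Measurable (wk : E N → ℝ) := by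
  unfold wk
  exact (measurable_norm.pow_const _).inv

lemma wk_le {z : E N} {ρ : ℝ} (hρ : 0 < ρ) (h : ρ ≤ ‖z‖) : wk z ≤ (ρ ^ (N - 1))⁻¹ := by
  unfold wk
  exact inv_anti₀ (pow_pos hρ _) (pow_le_pow_left₀ hρ.le h _)

/-- integrability of the majorant -/
lemma int_maj (hw : ∀ R : ℝ, 0 < R → IntegrableOn (wk : E N → ℝ) (ball 0 R)) (f : E N → ℝ)
    (hfc : Continuous f) (hfs : HasCompactSupport f) (hf : ∀ x, 0 ≤ f x ∧ f x ≤ 1) (x : E N) :
    Integrable (fun y => wk y * f (x - y)) := by
  obtain ⟨R, hR⟩ := hfs.isCompact.isBounded.subset_closedBall 0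
  have hsup : ∀ y, f (x - y) ≠ 0 → y ∈ ball (0 : E N) (‖x‖ + |R| + 1) := by
    intro y hy
    have h1 : x - y ∈ closedBall (0 : E N) R := hR (subset_tsupport _ hy)
    rw [mem_closedBall, dist_zero_right] at h1
    rw [mem_ball, dist_zero_right]
    calc ‖y‖ = ‖x - (x - y)‖ := by rw [sub_sub_cancel]
      _ ≤ ‖x‖ + ‖x - y‖ := norm_sub_le _ _
      _ ≤ ‖x‖ + |R| := by linarith [le_abs_self R]
      _ < ‖x‖ + |R| + 1 := by linarith
  have hpos : 0 < ‖x‖ + |R| + 1 := by positivity
  have h2 : Integrable ((ball (0 : E N) (‖x‖ + |R| + 1)).indicator (wk : E N → ℝ)) :=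
    (hw _ hpos).integrable_indicator measurableSet_ball
  refine h2.mono' ?_ (Filter.Eventually.of_forall fun y => ?_)
  · exact (wk_meas.mul (hfc.measurable.comp (measurable_const.sub measurable_id))).aestronglyMeasurable
  · rw [Real.norm_eq_abs, abs_mul, abs_of_nonneg (wk_nonneg y), abs_of_nonneg (hf _).1]
    by_cases hy : f (x - y) = 0
    · rw [hy, mul_zero]
      exact indicator_nonneg (fun z _ => wk_nonneg z) y
    · rw [indicator_of_mem (hsup y hy)]
      exact mul_le_of_le_one_right (wk_nonneg y) (hf _).2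

end

theorem pf_K5 (hMP : T_MP) (hK1 : T_K1) (hK2 : T_K2) : T_K5 := by
  intro N hN
  obtain ⟨-, har, -, -⟩ := hMP N hN
  obtain ⟨hkn, hknm, hw'⟩ := hK1 N hN
  have hw : ∀ R : ℝ, 0 < R → IntegrableOn (wk : E N → ℝ) (ball 0 R) := fun R hR => (hw' R hR).1
  have hwi : ∀ R : ℝ, 0 < R → ∫ z in ball (0 : E N) R, wk z = ar N * R :=
    fun R hR => (hw' R hR).2
  have hkn' : ∀ (i : Fin N) (z : E N), |kn i z| ≤ (ar N)⁻¹ * wk z := hkn
  refine ⟨2 + (ar N)⁻¹, by positivity, ?_⟩
  intro f hf hfs hf01
  have hfc : Continuous f := hf.continuous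
  have hfi : Integrable f := hfc.integrable_of_hasCompactSupport hfs
  have hI : 0 ≤ ∫ y, f y := integral_nonneg fun y => (hf01 y).1
  have hsub : ∀ x : E N, ∫ y, f (x - y) = ∫ y, f y := fun x => integral_sub_left_eq_self f volume x
  have hfix : ∀ x : E N, Integrable (fun y => f (x - y)) := fun x => hfi.comp_sub_left x
  have hmaj := int_maj hw f hfc hfs hf01
  have hptw : ∀ (i : Fin N) (x y : E N), ‖kn i y * f (x - y)‖ ≤ (ar N)⁻¹ * (wk y * f (x - y)) := by
    intro i x y
    rw [norm_mul, Real.norm_eq_abs, Real.norm_eq_abs, abs_of_nonneg (hf01 _).1, ← mul_assoc]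
    exact mul_le_mul_of_nonneg_right (hkn' i y) (hf01 _).1
  have hKV : ∀ (i : Fin N) (x : E N), |KV f i x| ≤ (ar N)⁻¹ * ∫ y, wk y * f (x - y) := by
    intro i x
    unfold KV
    rw [← Real.norm_eq_abs, ← integral_const_mul]
    exact norm_integral_le_of_norm_le ((hmaj x).const_mul _)
      (Filter.Eventually.of_forall fun y => hptw i x y)
  refine ⟨?_, ?_, ?_⟩
  · intro i x ρ hρ
    have hρN : 0 < ρ ^ (N - 1) := pow_pos hρ _
    have h1 : ∫ y, wk y * f (x - y) ≤ ar N * ρ + (∫ y, f y) / ρ ^ (N - 1) := by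
      rw [← integral_add_compl (measurableSet_ball (x := (0 : E N)) (ε := ρ)) (hmaj x)]
      refine add_le_add ?_ ?_
      · rw [← hwi ρ hρ]
        refine setIntegral_mono_on (hmaj x).integrableOn (hw ρ hρ) measurableSet_ball ?_
        intro y _
        exact mul_le_of_le_one_right (wk_nonneg y) (hf01 _).2
      · calc ∫ y in (ball (0 : E N) ρ)ᶜ, wk y * f (x - y)
            ≤ ∫ y in (ball (0 : E N) ρ)ᶜ, (ρ ^ (N - 1))⁻¹ * f (x - y) := by
              refine setIntegral_mono_on (hmaj x).integrableOn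
                ((hfix x).const_mul _).integrableOn measurableSet_ball.compl ?_
              intro y hy
              have hy' : ρ ≤ ‖y‖ := by
                rw [mem_compl_iff, mem_ball, dist_zero_right, not_lt] at hy
                exact hy
              exact mul_le_mul_of_nonneg_right (wk_le hρ hy') (hf01 _).1
          _ ≤ ∫ y, (ρ ^ (N - 1))⁻¹ * f (x - y) := by
              refine setIntegral_le_integral ((hfix x).const_mul _) ?_
              exact Filter.Eventually.of_forall fun y =>
                mul_nonneg (inv_nonneg.2 hρN.le) (hf01 _).1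
          _ = (∫ y, f y) / ρ ^ (N - 1) := by
              rw [integral_const_mul, hsub, div_eq_inv_mul]
    have hIρ : 0 ≤ (∫ y, f y) / ρ ^ (N - 1) := div_nonneg hI hρN.le
    calc |KV f i x| ≤ (ar N)⁻¹ * ∫ y, wk y * f (x - y) := hKV i x
      _ ≤ (ar N)⁻¹ * (ar N * ρ + (∫ y, f y) / ρ ^ (N - 1)) :=
          mul_le_mul_of_nonneg_left h1 (inv_nonneg.2 har.le)
      _ = ρ + (ar N)⁻¹ * ((∫ y, f y) / ρ ^ (N - 1)) := by
          rw [mul_add, ← mul_assoc, inv_mul_cancel₀ har.ne', one_mul]
      _ ≤ (2 + (ar N)⁻¹) * (ρ + (∫ y, f y) / ρ ^ (N - 1)) := by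
          have h3 : 0 < (ar N)⁻¹ := inv_pos.2 har
          nlinarith [mul_pos h3 hρ]
  · intro i x ρ hρ hsupp
    have hρN : 0 < ρ ^ (N - 1) := pow_pos hρ _
    have h1 : ∫ y, wk y * f (x - y) ≤ (∫ y, f y) / ρ ^ (N - 1) := by
      calc ∫ y, wk y * f (x - y) ≤ ∫ y, (ρ ^ (N - 1))⁻¹ * f (x - y) := by
            refine integral_mono (hmaj x) ((hfix x).const_mul _) ?_
            intro y
            by_cases hy : f (x - y) = 0
            · simp only [hy, mul_zero]; exact le_rfl
            · have h2 := hsupp (x - y) hy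
              rw [sub_sub_cancel] at h2
              exact mul_le_mul_of_nonneg_right (wk_le hρ h2) (hf01 _).1
        _ = (∫ y, f y) / ρ ^ (N - 1) := by
            rw [integral_const_mul, hsub, div_eq_inv_mul]
    have hIρ : 0 ≤ (∫ y, f y) / ρ ^ (N - 1) := div_nonneg hI hρN.le
    calc |KV f i x| ≤ (ar N)⁻¹ * ∫ y, wk y * f (x - y) := hKV i x
      _ ≤ (ar N)⁻¹ * ((∫ y, f y) / ρ ^ (N - 1)) :=
          mul_le_mul_of_nonneg_left h1 (inv_nonneg.2 har.le)
      _ ≤ (2 + (ar N)⁻¹) * ((∫ y, f y) / ρ ^ (N - 1)) :=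
          mul_le_mul_of_nonneg_right (by linarith) hIρ
  · intro hf1 i
    have hKc : Continuous (KV f i) := (hK2 N f i hN hf hfs).1.continuous
    have hfm : Measurable f := hfc.measurable
    -- the double integral
    have hpt : ∀ x : E N, ‖KV f i x‖ₑ ≤
        ∫⁻ z, ENNReal.ofReal ((ar N)⁻¹ * (wk (x - z) * f z)) := by
      intro x
      calc ‖KV f i x‖ₑ ≤ ∫⁻ y, ‖kn i y * f (x - y)‖ₑ := enorm_integral_le_lintegral_enorm _
        _ ≤ ∫⁻ y, ENNReal.ofReal ((ar N)⁻¹ * (wk y * f (x - y))) := by
            refine lintegral_mono fun y => ?_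
            rw [← ofReal_norm]
            exact ENNReal.ofReal_le_ofReal (hptw i x y)
        _ = ∫⁻ z, ENNReal.ofReal ((ar N)⁻¹ * (wk (x - z) * f z)) := by
            rw [← lintegral_sub_left_eq_self
              (fun y => ENNReal.ofReal ((ar N)⁻¹ * (wk y * f (x - y)))) x]
            simp only [sub_sub_cancel]
    have hmeas : Measurable fun p : E N × E N =>
        ENNReal.ofReal ((ar N)⁻¹ * (wk (p.1 - p.2) * f p.2)) := by
      refine ENNReal.measurable_ofReal.comp (measurable_const.mul ?_)
      exact (wk_meas.comp (measurable_fst.sub measurable_snd)).mul (hfm.comp measurable_snd)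
    have hin : ∀ z : E N, ∫⁻ x in ball (0 : E N) 1, ENNReal.ofReal ((ar N)⁻¹ * (wk (x - z) * f z)) ≤
        ENNReal.ofReal (2 * f z) := by
      intro z
      by_cases hz : f z = 0
      · simp [hz]
      · have hz1 : ‖z‖ < 1 := by
          by_contra h
          exact hz (hf1 z (not_lt.1 h))
        have e1 : ∀ x : E N, ENNReal.ofReal ((ar N)⁻¹ * (wk (x - z) * f z)) =
            ENNReal.ofReal ((ar N)⁻¹ * f z) * ENNReal.ofReal (wk (x - z)) := by
          intro x
          rw [← ENNReal.ofReal_mul (mul_nonneg (inv_nonneg.2 har.le) (hf01 z).1)]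
          congr 1
          ring
        have hwm : Measurable fun x : E N => ENNReal.ofReal (wk (x - z)) :=
          ENNReal.measurable_ofReal.comp (wk_meas.comp (measurable_id.sub measurable_const))
        simp_rw [e1]
        rw [lintegral_const_mul _ hwm]
        have e2 : ∫⁻ x in ball (0 : E N) 1, ENNReal.ofReal (wk (x - z)) ≤
            ENNReal.ofReal (ar N * 2) := by
          rw [← lintegral_indicator measurableSet_ball]
          calc ∫⁻ x, (ball (0 : E N) 1).indicator (fun x => ENNReal.ofReal (wk (x - z))) x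
              ≤ ∫⁻ x, (fun u => (ball (0 : E N) 2).indicator
                  (fun u => ENNReal.ofReal (wk u)) u) (x - z) := by
                refine lintegral_mono fun x => ?_
                by_cases hx : x ∈ ball (0 : E N) 1
                · have hx2 : x - z ∈ ball (0 : E N) 2 := by
                    rw [mem_ball, dist_zero_right] at hx ⊢
                    calc ‖x - z‖ ≤ ‖x‖ + ‖z‖ := norm_sub_le _ _
                      _ < 2 := by linarith
                  rw [indicator_of_mem hx]
                  simp only []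
                  rw [indicator_of_mem hx2]
                · rw [indicator_of_notMem hx]
                  exact zero_le
            _ = ∫⁻ u, (ball (0 : E N) 2).indicator (fun u => ENNReal.ofReal (wk u)) u :=
                lintegral_sub_right_eq_self
                  (fun u => (ball (0 : E N) 2).indicator (fun u => ENNReal.ofReal (wk u)) u) z
            _ = ∫⁻ u in ball (0 : E N) 2, ENNReal.ofReal (wk u) :=
                lintegral_indicator measurableSet_ball _
            _ = ENNReal.ofReal (∫ u in ball (0 : E N) 2, wk u) := by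
                rw [ofReal_integral_eq_lintegral_ofReal (hw 2 two_pos)
                  (Filter.Eventually.of_forall fun u => wk_nonneg u)]
            _ = ENNReal.ofReal (ar N * 2) := by rw [hwi 2 two_pos]
        calc ENNReal.ofReal ((ar N)⁻¹ * f z) * ∫⁻ x in ball (0 : E N) 1, ENNReal.ofReal (wk (x - z))
            ≤ ENNReal.ofReal ((ar N)⁻¹ * f z) * ENNReal.ofReal (ar N * 2) :=
              mul_le_mul_right e2 _
          _ = ENNReal.ofReal (2 * f z) := by
              rw [← ENNReal.ofReal_mul (mul_nonneg (inv_nonneg.2 har.le) (hf01 z).1)]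
              congr 1
              field_simp
    have hlin : ∫⁻ x in ball (0 : E N) 1, ‖KV f i x‖ₑ ≤ ENNReal.ofReal (2 * ∫ y, f y) := by
      calc ∫⁻ x in ball (0 : E N) 1, ‖KV f i x‖ₑ
          ≤ ∫⁻ x in ball (0 : E N) 1, ∫⁻ z, ENNReal.ofReal ((ar N)⁻¹ * (wk (x - z) * f z)) :=
            lintegral_mono fun x => hpt x
        _ = ∫⁻ z, ∫⁻ x in ball (0 : E N) 1, ENNReal.ofReal ((ar N)⁻¹ * (wk (x - z) * f z)) :=
            lintegral_lintegral_swap hmeas.aemeasurable
        _ ≤ ∫⁻ z, ENNReal.ofReal (2 * f z) := lintegral_mono fun z => hin z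
        _ = ENNReal.ofReal (2 * ∫ y, f y) := by
            rw [← integral_const_mul, ofReal_integral_eq_lintegral_ofReal (hfi.const_mul 2)
              (Filter.Eventually.of_forall fun u => mul_nonneg two_pos.le (hf01 u).1)]
    have h2I : 0 ≤ 2 * ∫ y, f y := by positivity
    calc ∫ x in ball (0 : E N) 1, |KV f i x| = ∫ x in ball (0 : E N) 1, ‖KV f i x‖ := rfl
      _ = (∫⁻ x in ball (0 : E N) 1, ‖KV f i x‖ₑ).toReal :=
          integral_norm_eq_lintegral_enorm hKc.aestronglyMeasurable
      _ ≤ 2 * ∫ y, f y := ENNReal.toReal_le_of_le_ofReal h2I hlin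
      _ ≤ (2 + (ar N)⁻¹) * ∫ y, f y := by
          have h3 : 0 < (ar N)⁻¹ := inv_pos.2 har
          nlinarith [mul_nonneg h3.le hI]

end Pool.Agent.H55.LQ1
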